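import Pool.Agent.Helper57.ZF.Goals

set_option autoImplicit false

namespace Pool.Agent.Helper31.ZF

open Pool.Agent.Helper57.ZF

theorem MEET : Pool.Agent.Helper57.ZF.G_MEET := by
  intro E _ _ _ f g hf hg
  haveI : CompleteSpace E := FiniteDimensional.complete ℝ E
  have hkey : ∀ x : E, ‖g.1 (f.1 x)‖ ≤ (1 / 25) * ‖x‖ := by
    intro x
    calc ‖g.1 (f.1 x)‖ ≤ ‖g.1‖ * ‖f.1 x‖ := g.1.le_opNorm _
      _ ≤ ‖g.1‖ * (‖f.1‖ * ‖x‖) := by
          apply mul_le_mul_of_nonneg_left (f.1.le_opNorm _) (norm_nonneg _)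
      _ ≤ (1 / 5) * ((1 / 5) * ‖x‖) := by
          apply mul_le_mul hg _ (by positivity) (by norm_num)
          exact mul_le_mul_of_nonneg_right hf (norm_nonneg _)
      _ = (1 / 25) * ‖x‖ := by ring
  have hcon : ContractingWith (1 / 25 : NNReal) (fun x : E => g.1 (f.1 x + f.2) + g.2) := by
    refine ⟨?_, ?_⟩
    · rw [← NNReal.coe_lt_coe]
      push_cast
      norm_num
    · apply LipschitzWith.of_dist_le_mul
      intro x y
      rw [dist_eq_norm, dist_eq_norm]
      have h1 : g.1 (f.1 x + f.2) + g.2 - (g.1 (f.1 y + f.2) + g.2) = g.1 (f.1 (x - y)) := by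
        simp only [map_add, map_sub]
        abel
      rw [h1]
      have := hkey (x - y)
      push_cast
      exact this
  have hfix := hcon.fixedPoint_isFixedPt
  set x₀ := ContractingWith.fixedPoint _ hcon with hx₀
  have hfix' : g.1 (f.1 x₀ + f.2) + g.2 = x₀ := hfix
  refine ⟨(x₀, f.1 x₀ + f.2), ⟨?_, ?_⟩, ?_⟩
  · show f.1 x₀ + f.2 = f.1 x₀ + f.2
    rfl
  · show x₀ = g.1 (f.1 x₀ + f.2) + g.2
    exact hfix'.symm
  · rintro ⟨x, y⟩ ⟨h1, h2⟩
    have h1' : y = f.1 x + f.2 := h1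
    have h2' : x = g.1 y + g.2 := h2
    have h3 : g.1 (f.1 x + f.2) + g.2 = x := by
      rw [← h1', ← h2']
    have h4 : x = x₀ := by
      have h5 : x - x₀ = g.1 (f.1 (x - x₀)) := by
        calc x - x₀ = (g.1 (f.1 x + f.2) + g.2) - (g.1 (f.1 x₀ + f.2) + g.2) := by
              rw [h3, hfix']
          _ = g.1 (f.1 (x - x₀)) := by
              simp only [map_add, map_sub]
              abel
      have h6 := hkey (x - x₀)
      rw [← h5] at h6
      have h7 : ‖x - x₀‖ = 0 := by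
        have := norm_nonneg (x - x₀)
        linarith
      exact sub_eq_zero.1 (norm_eq_zero.1 h7)
    rw [h1', h4]

end Pool.Agent.Helper31.ZF
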