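import Pool.Agent.Helper57.ZF.Goals

set_option autoImplicit false

namespace Pool.Agent.Helper31.ZF

open scoped Classical in
theorem MSEP : Pool.Agent.Helper57.ZF.G_MSEP := by
  intro M _ T r hr
  let fam : Finset (Finset M) :=
    T.powerset.filter (fun S => ∀ x ∈ S, ∀ y ∈ S, x ≠ y → r ≤ dist x y)
  have hne : fam.Nonempty := ⟨∅, by simp [fam]⟩
  obtain ⟨S, hS, hmax⟩ := Finset.exists_max_image fam (fun S => S.card) hne
  simp only [fam, Finset.mem_filter, Finset.mem_powerset] at hS
  refine ⟨S, hS.1, hS.2, ?_⟩
  intro x hx
  by_contra hcon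
  push Not at hcon
  have hxS : x ∉ S := by
    intro hxS
    have := hcon x hxS
    rw [dist_self] at this
    linarith
  have hmem : insert x S ∈ fam := by
    simp only [fam, Finset.mem_filter, Finset.mem_powerset]
    refine ⟨Finset.insert_subset hx hS.1, ?_⟩
    intro a ha b hb hab
    rcases Finset.mem_insert.1 ha with rfl | ha'
    · rcases Finset.mem_insert.1 hb with rfl | hb'
      · exact absurd rfl hab
      · exact hcon b hb'
    · rcases Finset.mem_insert.1 hb with rfl | hb'
      · rw [dist_comm]
        exact hcon a ha'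
      · exact hS.2 a ha' b hb' hab
  have := hmax _ hmem
  rw [Finset.card_insert_of_notMem hxS] at this
  omega

end Pool.Agent.Helper31.ZF
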