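import Pool.Agent.Helper57.ZF.Goals

set_option autoImplicit false

namespace Pool.Agent.Helper31.ZF

open Pool.Agent.Helper57.ZF

open scoped Classical in
theorem NEAR (hLC : Pool.Agent.Helper57.ZF.G_LC) : Pool.Agent.Helper57.ZF.G_NEAR := by
  intro M _ hD
  obtain ⟨N, hN⟩ := hLC M hD 64
  refine ⟨N, ?_⟩
  intro P t rad L w hL
  have hsub : P.filter (fun p => dist p (w p) ≤ 32 * rad (w p)) ⊆
      L.biUnion (fun q => P.filter (fun p => dist p q ≤ 32 * rad q ∧ rad q / 2 ≤ rad p)) := by
    intro p hp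
    rw [Finset.mem_filter] at hp
    obtain ⟨hpP, hpd⟩ := hp
    rw [Finset.mem_biUnion]
    refine ⟨w p, hL.wmem p hpP, ?_⟩
    rw [Finset.mem_filter]
    refine ⟨hpP, hpd, ?_⟩
    obtain ⟨q', hq'L, hq'r, hq'd⟩ := hL.dom p hpP
    have hwL := hL.wmem p hpP
    have hwP := hL.sub hwL
    have hw0 := hL.radpos _ hwP
    by_cases hqq : q' = w p
    · subst hqq
      linarith
    · have h1 := hL.wmin p hpP q' hq'L
      have h2 := hL.sep (w p) hwL q' hq'L (Ne.symm hqq)
      have h3 : dist (w p) q' ≤ dist (w p) p + dist p q' := dist_triangle _ _ _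
      rw [dist_comm (w p) p] at h3
      linarith
  rw [cnt_eq]
  calc (P.filter (fun p => dist p (w p) ≤ 32 * rad (w p))).card
      ≤ (L.biUnion (fun q => P.filter (fun p => dist p q ≤ 32 * rad q ∧ rad q / 2 ≤ rad p))).card :=
        Finset.card_le_card hsub
    _ ≤ ∑ q ∈ L, (P.filter (fun p => dist p q ≤ 32 * rad q ∧ rad q / 2 ≤ rad p)).card :=
        Finset.card_biUnion_le
    _ ≤ ∑ _q ∈ L, N * t := by
        apply Finset.sum_le_sum
        intro q hq
        have hq0 := hL.radpos q (hL.sub hq)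
        have := hN P t rad hL.small q (32 * rad q) (rad q / 2) (by linarith) (by linarith)
        rw [cnt_eq] at this
        exact this
    _ = N * t * L.card := by
        rw [Finset.sum_const, smul_eq_mul, mul_comm]

end Pool.Agent.Helper31.ZF
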